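import Pool.Agent.Lib.HC.Defs

/-!
# PROJECT HC: the torus `V / L` itself as a compact complex manifold with a weight (helper58)

`fund_class`: for every abelian variety `T` the class `c (a₁, …, a_2k) = det (a_i (e (frame j)))` is
algebraic, `e : ℂ^k ≃ V` a complex linear isomorphism.
-/

set_option autoImplicit false

open MeasureTheory

noncomputable section

namespace HC
namespace Fund

/-- The tent function. -/
def tent (x : ℝ) : ℝ := max 0 (1 - |x|)

theorem tent_cont : Continuous tent :=
  continuous_const.max (continuous_const.sub continuous_abs)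

theorem tent_nonneg (x : ℝ) : 0 ≤ tent x := le_max_left _ _

theorem tent_out {x : ℝ} (h : 1 ≤ |x|) : tent x = 0 := max_eq_left (by linarith)

theorem tent_zero : tent 0 = 1 := by
  rw [tent, abs_zero, sub_zero]
  exact max_eq_right zero_le_one

theorem tent_pair (x : ℝ) : ∑ m ∈ ({-⌊x⌋ - 1, -⌊x⌋} : Finset ℤ), tent (x + (m : ℝ)) = 1 := by
  rw [Finset.sum_pair (by omega)]
  have h0 := Int.fract_nonneg x
  have h1 := (Int.fract_lt_one x).le
  have e0 : Int.fract x = x - ⌊x⌋ := rfl
  have e1 : x + ((-⌊x⌋ - 1 : ℤ) : ℝ) = Int.fract x - 1 := by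
    push_cast
    rw [e0]
    ring
  have e2 : x + ((-⌊x⌋ : ℤ) : ℝ) = Int.fract x := by
    push_cast
    rw [e0]
    ring
  rw [e1, e2, tent, tent, abs_of_nonneg h0, abs_of_nonpos (by linarith),
    max_eq_right (by linarith), max_eq_right (by linarith)]
  ring

theorem tent_far {x : ℝ} {m : ℤ} (h : m ∉ ({-⌊x⌋ - 1, -⌊x⌋} : Finset ℤ)) : tent (x + (m : ℝ)) = 0 := by
  apply tent_out
  by_contra hc
  rw [not_le, abs_lt] at hc
  have h3 := Int.floor_le x
  have h4 := Int.lt_floor_add_one x
  have h5 : (m : ℝ) < ((1 - ⌊x⌋ : ℤ) : ℝ) := by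
    push_cast
    linarith
  have h6 : ((-⌊x⌋ - 2 : ℤ) : ℝ) < m := by
    push_cast
    linarith
  have h7 : m < 1 - ⌊x⌋ := by exact_mod_cast h5
  have h8 : -⌊x⌋ - 2 < m := by exact_mod_cast h6
  apply h
  rw [Finset.mem_insert, Finset.mem_singleton]
  omega

theorem hasSum_tent {ι : Type*} [Fintype ι] (x : ι → ℝ) :
    HasSum (fun p : ι → ℤ => ∏ i, tent (x i + (p i : ℝ))) 1 := by
  classical
  have h : HasSum (fun p : ι → ℤ => ∏ i, tent (x i + (p i : ℝ)))
      (∑ p ∈ Fintype.piFinset fun i => ({-⌊x i⌋ - 1, -⌊x i⌋} : Finset ℤ),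
        ∏ i, tent (x i + (p i : ℝ))) := by
    refine hasSum_sum_of_ne_finset_zero ?_
    intro p hp
    rw [Fintype.mem_piFinset, not_forall] at hp
    obtain ⟨i, hi⟩ := hp
    exact Finset.prod_eq_zero (Finset.mem_univ i) (tent_far hi)
  have h2 := Finset.prod_univ_sum (fun i => ({-⌊x i⌋ - 1, -⌊x i⌋} : Finset ℤ))
    (fun i m => tent (x i + (m : ℝ)))
  rw [← h2] at h
  have h3 : ∏ i, ∑ m ∈ ({-⌊x i⌋ - 1, -⌊x i⌋} : Finset ℤ), tent (x i + (m : ℝ)) = 1 :=
    Finset.prod_eq_one fun i _ => tent_pair (x i)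
  rwa [h3] at h

section

variable (T : AV)

/-- The complex dimension. -/
def dm : ℕ := Module.finrank ℂ T.V

/-- Complex coordinates. -/
def ec : (Fin (dm T) → ℂ) ≃L[ℂ] T.V :=
  ContinuousLinearEquiv.ofFinrankEq (by rw [Module.finrank_fin_fun]; rfl)

instance : Module.Free ℤ T.L := ZLattice.module_free ℝ T.L

instance : Module.Finite ℤ T.L := ZLattice.module_finite ℝ T.L

/-- The index set of a basis of the lattice. -/
abbrev Ix : Type := Module.Free.ChooseBasisIndex ℤ T.L

/-- A basis of the lattice. -/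
def bZ : Module.Basis (Ix T) ℤ T.L := Module.Free.chooseBasis ℤ T.L

/-- The same as a real basis. -/
def bR : Module.Basis (Ix T) ℝ T.V := (bZ T).ofZLatticeBasis ℝ T.L

/-- The real coordinates. -/
def cr (z : Fin (dm T) → ℂ) (i : Ix T) : ℝ := (bR T).repr (ec T z) i

theorem cr_cont (i : Ix T) : Continuous fun z => cr T z i := by
  have h1 : Continuous ((bR T).coord i) := LinearMap.continuous_of_finiteDimensional _
  exact h1.comp (ec T).continuous

theorem cr_add (z : Fin (dm T) → ℂ) (l : T.L) (i : Ix T) :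
    cr T (z + (ec T).symm (l : T.V)) i = cr T z i + ((bZ T).repr l i : ℝ) := by
  unfold cr
  rw [map_add, ContinuousLinearEquiv.apply_symm_apply, map_add, Finsupp.add_apply]
  congr 1
  exact (bZ T).ofZLatticeBasis_repr_apply ℝ T.L l i

/-- The weight. -/
def chi (z : Fin (dm T) → ℂ) : ℝ := ∏ i, tent (cr T z i)

theorem chi_cont : Continuous (chi T) :=
  continuous_finset_prod _ fun i _ => tent_cont.comp (cr_cont T i)

theorem chi_nonneg (z : Fin (dm T) → ℂ) : 0 ≤ chi T z :=
  Finset.prod_nonneg fun i _ => tent_nonneg _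

theorem chi_zero : chi T 0 = 1 := by
  unfold chi
  refine Finset.prod_eq_one fun i _ => ?_
  unfold cr
  rw [map_zero, map_zero, Finsupp.zero_apply, tent_zero]

theorem chi_cpt : HasCompactSupport (chi T) := by
  set e : (Fin (dm T) → ℂ) ≃ₗ[ℝ] (Ix T → ℝ) :=
    ((ec T).toLinearEquiv.restrictScalars ℝ).trans (bR T).equivFun with he
  have hec : Continuous e.symm := LinearMap.continuous_of_finiteDimensional e.symm.toLinearMap
  have hK : IsCompact (e.symm '' (Set.univ.pi fun _ => Set.Icc (-1 : ℝ) 1)) :=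
    (isCompact_univ_pi fun _ => isCompact_Icc).image hec
  refine HasCompactSupport.intro hK ?_
  intro z hz
  unfold chi
  by_contra hne
  apply hz
  refine ⟨e z, ?_, e.symm_apply_apply z⟩
  intro i _
  have h1 : tent (cr T z i) ≠ 0 := fun h => hne (Finset.prod_eq_zero (Finset.mem_univ i) h)
  have h2 : |cr T z i| < 1 := by
    by_contra hc
    exact h1 (tent_out (not_lt.1 hc))
  exact ⟨(abs_lt.1 h2).1.le, (abs_lt.1 h2).2.le⟩

/-- The index of a lattice vector. -/
def eL : Multiplicative T.L ≃ (Ix T → ℤ) := Multiplicative.toAdd.trans (bZ T).equivFun.toEquiv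

/-- The action of the lattice by translations. -/
def tr (g : Multiplicative T.L) (z : Fin (dm T) → ℂ) : Fin (dm T) → ℂ :=
  z + (ec T).symm ((Multiplicative.toAdd g : T.L) : T.V)

theorem chi_sum (z : Fin (dm T) → ℂ) : HasSum (fun g => chi T (tr T g z)) 1 := by
  have h := (eL T).hasSum_iff.2 (hasSum_tent (cr T z))
  have e : (fun p : Ix T → ℤ => ∏ i, tent (cr T z i + (p i : ℝ))) ∘ (eL T) =
      fun g => chi T (tr T g z) := by
    funext g
    change ∏ i, tent (cr T z i + ((eL T g i : ℤ) : ℝ)) = ∏ i, tent (cr T (tr T g z) i)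
    refine Finset.prod_congr rfl fun i _ => ?_
    rw [tr, cr_add]
    rfl
  rwa [e] at h

/-- The torus as a compact complex manifold. -/
def tor : CMan (dm T) where
  D := Set.univ
  Γ := Multiplicative T.L
  act := tr T
  isOpen := isOpen_univ
  maps _ _ _ := Set.mem_univ _
  one z _ := by
    unfold tr
    rw [toAdd_one, Submodule.coe_zero, map_zero, add_zero]
  mul g h z _ := by
    unfold tr
    rw [toAdd_mul, Submodule.coe_add, map_add, add_comm ((ec T).symm _), add_assoc]
  hol g := ((differentiable_id).add_const _).differentiableOn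
  free g z _ h := by
    unfold tr at h
    have h1 : (ec T).symm ((Multiplicative.toAdd g : T.L) : T.V) = 0 := add_eq_left.1 h
    have h2 : ((Multiplicative.toAdd g : T.L) : T.V) = 0 := by
      rw [← (ec T).symm.map_eq_zero_iff]
      exact h1
    have h3 : (Multiplicative.toAdd g : T.L) = 0 := Subtype.ext h2
    exact toAdd_eq_zero.1 h3
  disc C _ hC := by
    have hK : IsCompact ((fun p : (Fin (dm T) → ℂ) × (Fin (dm T) → ℂ) => ec T (p.1 - p.2)) ''
        (C ×ˢ C)) :=
      (hC.prod hC).image ((ec T).continuous.comp (continuous_fst.sub continuous_snd))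
    have hcl : IsClosed (T.L : Set T.V) := by
      have : DiscreteTopology T.L.toAddSubgroup := T.disc
      exact AddSubgroup.isClosed_of_discrete (H := T.L.toAddSubgroup)
    have hf := Metric.finite_isBounded_inter_isClosed (s := (T.L : Set T.V)) ⟨T.disc⟩ hK.isBounded hcl
    refine Set.Finite.subset (hf.preimage (f := fun g : Multiplicative T.L =>
      ((Multiplicative.toAdd g : T.L) : T.V)) ?_) ?_
    · intro g _ g' _ h
      exact Multiplicative.toAdd.injective (Subtype.ext h)
    · rintro g ⟨w, ⟨z, hz, rfl⟩, hw⟩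
      refine ⟨⟨(tr T g z, z), ⟨hw, hz⟩, ?_⟩, (Multiplicative.toAdd g : T.L).2⟩
      change ec T (z + (ec T).symm ((Multiplicative.toAdd g : T.L) : T.V) - z) = _
      rw [add_sub_cancel_left, ContinuousLinearEquiv.apply_symm_apply]
  cpt := by
    refine ⟨tsupport (chi T), Set.subset_univ _, chi_cpt T, fun z _ => ?_⟩
    by_contra hc
    rw [not_exists] at hc
    have h0 : (fun g => chi T (tr T g z)) = fun _ => 0 := by
      funext g
      exact image_eq_zero_of_notMem_tsupport (hc g)
    have h1 := chi_sum T z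
    rw [h0] at h1
    exact zero_ne_one (hasSum_zero.unique h1)

theorem tor_wt : IsWeight (tor T) (chi T) where
  cont := chi_cont T
  nonneg := chi_nonneg T
  cpt := chi_cpt T
  supp := Set.subset_univ _
  sum z _ := chi_sum T z

theorem tor_map : IsMap (tor T) T (ec T) where
  hol := (ec T).differentiable.differentiableOn
  per g z _ := by
    change ec T (z + (ec T).symm ((Multiplicative.toAdd g : T.L) : T.V)) - ec T z ∈ T.L
    rw [map_add, ContinuousLinearEquiv.apply_symm_apply, add_sub_cancel_left]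
    exact (Multiplicative.toAdd g : T.L).2

/-- Evaluation of 1-forms. -/
def evl {V : Type} [AddCommGroup V] [Module ℂ V] (v : V) : (V →ₗ[ℝ] ℂ) →ₗ[ℂ] ℂ where
  toFun a := a v
  map_add' _ _ := rfl
  map_smul' _ _ := rfl

/-- The class `det (a_i (v_j))`. -/
def dcl {m : ℕ} (v : Fin m → T.V) : Hlg T m :=
  (Matrix.detRowAlternating (n := Fin m) (R := ℂ)).compLinearMap (LinearMap.pi fun j => evl (v j))

theorem dcl_apply {m : ℕ} (v : Fin m → T.V) (a : Fin m → (T.V →ₗ[ℝ] ℂ)) :
    dcl T v a = Matrix.det (Matrix.of fun i j => a i (v j)) := rfl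

theorem int_chi_pos : 0 < ∫ z, chi T z := by
  refine (chi_cont T).integral_pos_of_hasCompactSupport_nonneg_nonzero (chi_cpt T)
    (chi_nonneg T) (x := 0) ?_
  rw [chi_zero]
  exact one_ne_zero

theorem fund_class : Alg T (2 * dm T) (dcl T fun j => ec T (frame (dm T) j)) := by
  have h := Alg.geo (tor T) (ec T) (tor_map T) (chi T) (tor_wt T)
    (((∫ z, chi T z : ℝ) : ℂ) • dcl T fun j => ec T (frame (dm T) j)) (by
      intro a
      have e : ∀ z, (Matrix.of fun i j => a i (fderiv ℂ (ec T) z (frame (dm T) j))) =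
          Matrix.of fun i j => a i (ec T (frame (dm T) j)) := by
        intro z
        rw [(ec T).fderiv]
        rfl
      rw [AlternatingMap.smul_apply, dcl_apply, smul_eq_mul]
      simp_rw [e]
      rw [MeasureTheory.integral_mul_const, integral_complex_ofReal])
  have h2 := Alg.smul ((((∫ z, chi T z : ℝ) : ℂ))⁻¹) h
  rwa [smul_smul, inv_mul_cancel₀ (by exact_mod_cast (int_chi_pos T).ne'), one_smul] at h2

end

end Fund
end HC
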