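import Pool.Agent.Lib.HC.Iface
import Pool.Agent.Lib.CMT.H.Signs

/-!
# PROJECT HC: the Riemann form of `∏ ℂ^{f_i} / f_i(O_K)`, `K` a CM field

`E (u, v) = ∑_i ∑_{τ ∈ f_i} 2 Re (τ (ξ_i) u_τ conj v_τ)`, `ξ_i` integral with `conj ξ_i = - ξ_i` and
`Im τ (ξ_i) < 0` for `τ ∈ f_i`; on the lattice it is the trace of `ξ_i x_i conj y_i`.
-/

set_option autoImplicit false

open scoped ComplexConjugate
open NumberField NumberField.ComplexEmbedding

noncomputable section

namespace HC

section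

variable (K : Type) [Field K] [NumberField K] [NumberField.IsCMField K]

theorem emb_cconj (τ : K →+* ℂ) (x : K) : τ (IsCMField.complexConj K x) = conj (τ x) :=
  IsCMField.complexEmbedding_complexConj K τ x

theorem exists_delta : ∃ δ : K, δ ≠ 0 ∧ IsCMField.complexConj K δ = -δ := by
  have h := IsCMField.complexConj_ne_one K
  have h1 : ∃ y, IsCMField.complexConj K y ≠ y := by
    by_contra h'
    push Not at h'
    exact h (AlgEquiv.ext fun x => h' x)
  obtain ⟨y, hy⟩ := h1
  refine ⟨y - IsCMField.complexConj K y, sub_ne_zero.mpr (Ne.symm hy), ?_⟩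
  rw [map_sub, IsCMField.complexConj_apply_apply]
  ring

theorem conj_of_res {δ : K} (hδ0 : δ ≠ 0) (hδ : IsCMField.complexConj K δ = -δ)
    (τ τ' : K →+* ℂ) (hr : ∀ x : maximalRealSubfield K, τ x = τ' x) (h1 : 0 < (τ δ).im)
    (h2 : (τ' δ).im < 0) : τ' = conjugate τ := by
  have hd2 : IsCMField.complexConj K (δ ^ 2) = δ ^ 2 := by rw [map_pow, hδ, neg_sq]
  have hmem : δ ^ 2 ∈ maximalRealSubfield K := (IsCMField.complexConj_eq_self_iff K _).mp hd2
  have h3 : (τ δ) ^ 2 = (τ' δ) ^ 2 := by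
    rw [← map_pow, ← map_pow]
    exact hr ⟨δ ^ 2, hmem⟩
  have h4 : τ' δ = - τ δ := by
    rcases sq_eq_sq_iff_eq_or_eq_neg.mp h3 with h | h
    · rw [h] at h1
      linarith
    · rw [h, neg_neg]
  ext x
  rw [conjugate_coe_eq, ← emb_cconj]
  set c := IsCMField.complexConj K with hc
  have hcc : c (c x) = x := IsCMField.complexConj_apply_apply K x
  have hr1 : c ((x + c x) / 2) = (x + c x) / 2 := by
    rw [map_div₀, map_add, hcc, map_ofNat, add_comm]
  have hs1 : c ((x - c x) / (2 * δ)) = (x - c x) / (2 * δ) := by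
    rw [map_div₀, map_sub, hcc, map_mul, map_ofNat, hδ]
    field_simp
    ring
  have hrm := (IsCMField.complexConj_eq_self_iff K _).mp hr1
  have hsm := (IsCMField.complexConj_eq_self_iff K _).mp hs1
  have e1 : x = (x + c x) / 2 + (x - c x) / (2 * δ) * δ := by field_simp; ring
  have e2 : c x = (x + c x) / 2 - (x - c x) / (2 * δ) * δ := by field_simp; ring
  have hr' := hr ⟨_, hrm⟩
  have hs' := hr ⟨_, hsm⟩
  simp only at hr' hs'
  rw [e2, map_sub, map_mul]
  conv_lhs => rw [e1, map_add, map_mul, h4, ← hr', ← hs']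
  ring

/-- An integral purely imaginary element with prescribed signs. -/
theorem exists_xi (f : Set (K →+* ℂ)) (hf : IsType f) :
    ∃ ξ : K, IsIntegral ℤ ξ ∧ (∀ τ : K →+* ℂ, (τ ξ).re = 0) ∧ ∀ τ ∈ f, (τ ξ).im < 0 := by
  classical
  obtain ⟨δ, hδ0, hδ⟩ := exists_delta K
  have hres : ∀ τ : K →+* ℂ, ∃ t : maximalRealSubfield K →+* ℝ,
      ∀ x : maximalRealSubfield K, ((t x : ℝ) : ℂ) = τ x := by
    intro τ
    have h := IsTotallyReal.complexEmbedding_isReal (τ.comp (algebraMap (maximalRealSubfield K) K))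
    exact ⟨h.embedding, fun x => IsReal.coe_embedding_apply h x⟩
  have him : ∀ τ : K →+* ℂ, (τ δ).re = 0 ∧ (τ δ).im ≠ 0 := by
    intro τ
    have h1 : conj (τ δ) = - τ δ := by rw [← emb_cconj, hδ, map_neg]
    have h2 : (τ δ).re = 0 := by
      have h3 := congrArg Complex.re h1
      rw [Complex.conj_re, Complex.neg_re] at h3
      linarith
    refine ⟨h2, fun h3 => hδ0 ?_⟩
    have h4 : τ δ = 0 := Complex.ext h2 h3
    exact (map_eq_zero τ).mp h4
  let e : (maximalRealSubfield K →+* ℝ) → ℝ := fun t =>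
    if ∃ τ ∈ f, (∀ x : maximalRealSubfield K, ((t x : ℝ) : ℂ) = τ x) ∧ 0 < (τ δ).im then -1 else 1
  obtain ⟨a, ha⟩ := CMT.exists_sign e (by
    intro t
    simp only [e]
    split_ifs
    · right; rfl
    · left; rfl)
  obtain ⟨m, hm0, hm⟩ : ∃ m : ℤ, m ≠ 0 ∧ IsIntegral ℤ (m • ((a : K) * δ)) :=
    ((IsFractionRing.isAlgebraic_iff ℤ ℚ K).mpr
      (Algebra.IsAlgebraic.isAlgebraic ((a : K) * δ))).exists_integral_multiple
  have hval : ∀ τ : K →+* ℂ, τ ((m : K) * ((m : K) * ((a : K) * δ))) =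
      ((m : ℝ) ^ 2 : ℝ) * (τ a * τ δ) := by
    intro τ
    rw [map_mul, map_mul, map_mul, map_intCast]
    push_cast
    ring
  refine ⟨(m : K) * ((m : K) * ((a : K) * δ)), ?_, ?_, ?_⟩
  · rw [zsmul_eq_mul] at hm
    exact (isIntegral_algebraMap (R := ℤ) (x := m)).mul hm
  · intro τ
    obtain ⟨t, ht⟩ := hres τ
    rw [hval, ← ht, Complex.re_ofReal_mul, Complex.re_ofReal_mul, (him τ).1]
    simp
  · intro τ hτ
    obtain ⟨t, ht⟩ := hres τ
    rw [hval, ← ht, Complex.im_ofReal_mul, Complex.im_ofReal_mul]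
    have hm2 : (0 : ℝ) < (m : ℝ) ^ 2 := by
      have : (m : ℝ) ≠ 0 := by exact_mod_cast hm0
      positivity
    refine mul_neg_of_pos_of_neg hm2 ?_
    have hat := ha t
    by_cases h : 0 < (τ δ).im
    · have he : e t = -1 := if_pos ⟨τ, hτ, ht, h⟩
      rw [he] at hat
      exact mul_neg_of_neg_of_pos (by linarith) h
    · have hneg : (τ δ).im < 0 := lt_of_le_of_ne (not_lt.mp h) (him τ).2
      have he : e t = 1 := by
        refine if_neg ?_
        rintro ⟨τ', hτ', ht', h'⟩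
        have hc := conj_of_res K hδ0 hδ τ' τ (fun x => by rw [← ht, ← ht']) h' hneg
        rw [hc] at hτ
        exact ((hf τ').mp hτ') hτ
      rw [he] at hat
      exact mul_neg_of_pos_of_neg (by linarith) hneg

omit [NumberField.IsCMField K] in
/-- The sum over a CM type of twice the real parts is the trace. -/
theorem sum_type (f : Set (K →+* ℂ)) (hf : IsType f) [hF : Fintype f] (y : K) :
    ∑ τ : f, 2 * (τ.1 y).re = ((Algebra.trace ℚ K y : ℚ) : ℝ) := by
  classical
  obtain rfl : hF = Subtype.fintype (fun σ => σ ∈ f) := Subsingleton.elim _ _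
  have h1 : ((Algebra.trace ℚ K y : ℚ) : ℂ) = ∑ σ : K →+* ℂ, σ y := by
    have h := trace_eq_sum_embeddings (K := ℚ) (L := K) ℂ (x := y)
    rw [eq_ratCast] at h
    rw [h]
    exact (Fintype.sum_equiv (RingHom.equivRatAlgHom K ℂ) _ _ (fun φ => by
      simp [RingHom.equivRatAlgHom_apply])).symm
  have h2 : ((Algebra.trace ℚ K y : ℚ) : ℝ) = ∑ σ : K →+* ℂ, (σ y).re := by
    have h := congrArg Complex.re h1
    rw [Complex.re_sum] at h
    rw [← h]
    exact (Complex.ofReal_re _).symm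
  rw [h2, ← Fintype.sum_subtype_add_sum_subtype (fun σ => σ ∈ f)]
  have h3 : ∑ σ : {σ : K →+* ℂ // ¬ σ ∈ f}, (σ.1 y).re = ∑ σ : {σ : K →+* ℂ // σ ∈ f}, (σ.1 y).re := by
    refine Fintype.sum_bijective
      (fun σ => ⟨conjugate σ.1, by
        by_contra h
        exact σ.2 ((hf σ.1).mpr h)⟩) ?_ _ _ ?_
    · refine ⟨fun σ σ' h => ?_, fun σ => ?_⟩
      · have h4 := congrArg Subtype.val h
        simp only at h4
        exact Subtype.ext ((involutive_conjugate K).injective h4)
      · refine ⟨⟨conjugate σ.1, (hf σ.1).mp σ.2⟩, ?_⟩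
        exact Subtype.ext (involutive_conjugate K σ.1)
    · intro σ
      rw [conjugate_coe_eq, Complex.conj_re]
  rw [h3, ← Finset.mul_sum, two_mul]

end

/-- The Riemann form, general form: `e i j`, `j ∈ J i`, are the embeddings of a CM type. -/
theorem exists_pol {K : Type} [Field K] [NumberField K] [NumberField.IsCMField K]
    {ι : Type} [Finite ι] (J : ι → Type) [∀ i, Finite (J i)] (e : ∀ i, J i → (K →+* ℂ))
    (he : ∀ i, Function.Injective (e i)) (ht : ∀ i, IsType (Set.range (e i))) :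
    ∃ E : (((i : ι) × J i) → ℂ) →ₗ[ℝ] (((i : ι) × J i) → ℂ) →ₗ[ℝ] ℝ,
      (∀ x y : ι → K, (∀ i, IsIntegral ℤ (x i)) → (∀ i, IsIntegral ℤ (y i)) →
        ∃ m : ℤ, E (fun s => e s.1 s.2 (x s.1)) (fun s => e s.1 s.2 (y s.1)) = m) ∧
      (∀ u v, E u v = -E v u) ∧ (∀ u v, E (Complex.I • u) (Complex.I • v) = E u v) ∧
      ∀ v, v ≠ 0 → 0 < E (Complex.I • v) v := by
  classical
  have hfι : Fintype ι := Fintype.ofFinite _
  have hfin : ∀ i, Fintype (J i) := fun i => Fintype.ofFinite _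
  choose ξ hξi hξr hξs using fun i => exists_xi K (Set.range (e i)) (ht i)
  let y : ((i : ι) × J i) → ℝ := fun s => (e s.1 s.2 (ξ s.1)).im
  have hy : ∀ s, y s < 0 := fun s => hξs s.1 _ ⟨s.2, rfl⟩
  let E : (((i : ι) × J i) → ℂ) →ₗ[ℝ] (((i : ι) × J i) → ℂ) →ₗ[ℝ] ℝ :=
    LinearMap.mk₂ ℝ (fun u v => ∑ s, 2 * (y s * ((u s).re * (v s).im - (u s).im * (v s).re)))
      (fun u u' v => by
        rw [← Finset.sum_add_distrib]
        refine Finset.sum_congr rfl fun s _ => ?_
        rw [Pi.add_apply, Complex.add_re, Complex.add_im]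
        ring)
      (fun c u v => by
        rw [smul_eq_mul, Finset.mul_sum]
        refine Finset.sum_congr rfl fun s _ => ?_
        rw [Pi.smul_apply, Complex.smul_re, Complex.smul_im, smul_eq_mul, smul_eq_mul]
        ring)
      (fun u v v' => by
        rw [← Finset.sum_add_distrib]
        refine Finset.sum_congr rfl fun s _ => ?_
        rw [Pi.add_apply, Complex.add_re, Complex.add_im]
        ring)
      (fun c u v => by
        rw [smul_eq_mul, Finset.mul_sum]
        refine Finset.sum_congr rfl fun s _ => ?_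
        rw [Pi.smul_apply, Complex.smul_re, Complex.smul_im, smul_eq_mul, smul_eq_mul]
        ring)
  have hE : ∀ u v, E u v = ∑ s, 2 * (y s * ((u s).re * (v s).im - (u s).im * (v s).re)) :=
    fun u v => rfl
  have hIre : ∀ z : ℂ, (Complex.I * z).re = -z.im := by intro z; simp
  have hIim : ∀ z : ℂ, (Complex.I * z).im = z.re := by intro z; simp
  refine ⟨E, ?_, ?_, ?_, ?_⟩
  · intro x x' hx hx'
    have h1 : E (fun s => e s.1 s.2 (x s.1)) (fun s => e s.1 s.2 (x' s.1)) =
        ∑ i : ι, ((Algebra.trace ℚ K (ξ i * x i * IsCMField.complexConj K (x' i)) : ℚ) : ℝ) := by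
      rw [hE, Fintype.sum_sigma]
      refine Finset.sum_congr rfl fun i _ => ?_
      rw [← sum_type K (Set.range (e i)) (ht i)]
      refine Fintype.sum_equiv (Equiv.ofInjective (e i) (he i)) _ _ fun τ => ?_
      rw [Equiv.ofInjective_apply, map_mul, map_mul, emb_cconj]
      have hr := hξr i (e i τ)
      simp only [Complex.mul_re, Complex.mul_im, Complex.conj_re, Complex.conj_im, hr, y]
      ring
    have h2 : ∀ i, ∃ m : ℤ, ((Algebra.trace ℚ K (ξ i * x i * IsCMField.complexConj K (x' i)) : ℚ) : ℝ)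
        = m := by
      intro i
      have h3 : IsIntegral ℤ (ξ i * x i * IsCMField.complexConj K (x' i)) :=
        ((hξi i).mul (hx i)).mul (map_isIntegral_int (IsCMField.complexConj K : K →+* K) (hx' i))
      have h4 : IsIntegral ℤ (Algebra.trace ℚ K (ξ i * x i * IsCMField.complexConj K (x' i))) :=
        Algebra.isIntegral_trace h3
      obtain ⟨m, hm⟩ := IsIntegrallyClosed.isIntegral_iff.mp h4
      refine ⟨m, ?_⟩
      rw [← hm]
      simp
    choose m hm using h2
    refine ⟨∑ i, m i, ?_⟩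
    rw [h1, Int.cast_sum]
    exact Finset.sum_congr rfl fun i _ => hm i
  · intro u v
    rw [hE, hE, ← Finset.sum_neg_distrib]
    refine Finset.sum_congr rfl fun s _ => ?_
    ring
  · intro u v
    rw [hE, hE]
    refine Finset.sum_congr rfl fun s _ => ?_
    rw [Pi.smul_apply, Pi.smul_apply, smul_eq_mul, smul_eq_mul, hIre, hIim, hIre, hIim]
    ring
  · intro v hv
    rw [hE]
    have h1 : ∀ s, 2 * (y s * (((Complex.I • v) s).re * (v s).im - ((Complex.I • v) s).im * (v s).re))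
        = 2 * (-y s) * ((v s).re ^ 2 + (v s).im ^ 2) := by
      intro s
      rw [Pi.smul_apply, smul_eq_mul, hIre, hIim]
      ring
    rw [Finset.sum_congr rfl fun s _ => h1 s]
    obtain ⟨s, hs⟩ := Function.ne_iff.mp hv
    refine Finset.sum_pos' (fun s _ => ?_) ⟨s, Finset.mem_univ s, ?_⟩
    · have := hy s
      have h2 : 0 ≤ (v s).re ^ 2 + (v s).im ^ 2 := by positivity
      exact mul_nonneg (by linarith) h2
    · have := hy s
      have h2 : 0 < (v s).re ^ 2 + (v s).im ^ 2 := by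
        rcases Complex.ext_iff.not.mp hs |> not_and_or.mp with h | h
        · have : 0 < (v s).re ^ 2 := by
            have h5 : (v s).re ≠ 0 := h
            positivity
          nlinarith [sq_nonneg (v s).im]
        · have : 0 < (v s).im ^ 2 := by
            have h5 : (v s).im ≠ 0 := h
            positivity
          nlinarith [sq_nonneg (v s).re]
      exact mul_pos (by linarith) h2

/-- Every embedding is `τ ∘ g`. -/
theorem CMF.exists_aut (X : CMF) (φ : X.K →+* ℂ) :
    ∃ g : X.G, φ = X.τ.comp (g : X.K →+* X.K) := by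
  let : Algebra X.K ℂ := X.τ.toAlgebra
  have hst : IsScalarTower ℚ X.K ℂ := IsScalarTower.of_algebraMap_eq fun x => by simp
  let φ' : X.K →ₐ[ℚ] ℂ := RingHom.equivRatAlgHom X.K ℂ φ
  refine ⟨Normal.algHomEquivAut ℚ ℂ X.K φ', ?_⟩
  have h := (Normal.algHomEquivAut ℚ ℂ X.K).symm_apply_apply φ'
  ext x
  have h2 := congrArg (fun ψ : X.K →ₐ[ℚ] ℂ => ψ x) h
  exact h2.symm

theorem CMF.isConj (X : CMF) (φ : X.K →+* ℂ) : IsConj φ X.c := by
  obtain ⟨g, rfl⟩ := X.exists_aut φ
  ext x
  show conj (X.τ (g x)) = X.τ (g (X.c x))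
  rw [← X.hc]
  exact congrArg X.τ (DFunLike.congr_fun (X.comm g) x)

theorem CMF.isTC (X : CMF) : NumberField.IsTotallyComplex X.K := by
  refine ⟨fun v => ?_⟩
  rw [← InfinitePlace.mk_embedding v, InfinitePlace.isComplex_mk_iff]
  exact (isConj_ne_one_iff (X.isConj v.embedding)).mp X.ne

theorem CMF.isCM (X : CMF) : NumberField.IsCMField X.K := by
  have := X.isTC
  exact IsCMField.of_forall_isConj (K := X.K) (σ := X.c) X.isConj

/-- The Riemann form of `∏_i ℂ^(f i) / (f i)(O_K)`, `K` a Galois CM field. -/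
theorem exists_polC (X : CMF) {ι : Type} [Finite ι] (f : ι → Ty X) :
    ∃ E : PV f →ₗ[ℝ] PV f →ₗ[ℝ] ℝ,
      (∀ u v : PV f,
        (∃ y : ι → X.K, (∀ i, IsIntegral ℤ (y i)) ∧ ∀ (i : ι) (g : (f i).S), u ⟨i, g⟩ = X.τ (g.1 (y i))) →
        (∃ y : ι → X.K, (∀ i, IsIntegral ℤ (y i)) ∧ ∀ (i : ι) (g : (f i).S), v ⟨i, g⟩ = X.τ (g.1 (y i))) →
        ∃ n : ℤ, E u v = n) ∧
      (∀ u v, E u v = -E v u) ∧ (∀ u v, E (Complex.I • u) (Complex.I • v) = E u v) ∧
      ∀ v, v ≠ 0 → 0 < E (Complex.I • v) v := by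
  have := X.isCM
  have hG : Finite X.G := inferInstance
  have hJ : ∀ i, Finite ((f i).S) := fun i => inferInstance
  have hinj : ∀ g g' : X.G, X.τ.comp (g : X.K →+* X.K) = X.τ.comp (g' : X.K →+* X.K) → g = g' := by
    intro g g' h
    ext x
    exact X.τ.injective (RingHom.congr_fun h x)
  obtain ⟨E, h1, h2, h3, h4⟩ := exists_pol (K := X.K) (fun i => (f i).S)
    (fun i g => X.τ.comp (g.1 : X.K →+* X.K))
    (fun i g g' h => Subtype.ext (hinj _ _ h))
    (fun i φ => by
      obtain ⟨g, rfl⟩ := X.exists_aut φ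
      have hc : conjugate (X.τ.comp (g : X.K →+* X.K)) = X.τ.comp ((X.c * g : X.G) : X.K →+* X.K) := by
        ext x
        exact (X.hc (g x)).symm
      rw [hc]
      constructor
      · rintro ⟨k, hk⟩ ⟨l, hl⟩
        have e1 := hinj _ _ hk
        have e2 := hinj _ _ hl
        have m1 := k.2
        have m2 := l.2
        rw [e1] at m1
        rw [e2] at m2
        exact (((f i).cm g).mp m1) m2
      · intro h
        have m : g ∈ (f i).S := by
          refine ((f i).cm g).mpr fun m => h ⟨⟨_, m⟩, rfl⟩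
        exact ⟨⟨g, m⟩, rfl⟩)
  refine ⟨E, ?_, h2, h3, h4⟩
  rintro u v ⟨x, hx, hu⟩ ⟨y, hy, hv⟩
  obtain ⟨n, hn⟩ := h1 x y hx hy
  refine ⟨n, ?_⟩
  rw [← hn]
  congr 1
  · congr 1
    funext s
    exact hu s.1 s.2
  · funext s
    exact hv s.1 s.2

end HC
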