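import Pool.Agent.Lib.HC.Iface

/-!
# PROJECT HC, part I (helper74): S_P1 (Pontryagin products) and S_I (balanced classes)
-/

set_option autoImplicit false

noncomputable section

namespace HC

/-- The relation between the dual bases for `S_Hom` with `i = id`, `n = 1`. -/
theorem hom_x (hH : S_Hom) (X : CMF) {m : ℕ} {ι' : Type} [Fintype ι'] (g : Fin m → Ty X) (f' : ι' → Ty X)
    (T T' : AV) (C : Crd g T) (C' : Crd f' T') (i' : Fin m → ι') (h : Fin m → X.G)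
    (hc : ∀ a γ, γ ∈ (f' (i' a)).S ↔ γ * h a ∈ (g a).S) :
    ∃ φ : T.V →ₗ[ℂ] T'.V, (∀ v ∈ T.L, φ v ∈ T'.L) ∧
      ∀ (j : Fin m), C.x (j, 1) ∘ₗ pull φ = C'.x (i' j, (h j)⁻¹) := by
  obtain ⟨φ, h1, -, h3⟩ := hH X (Fin m) ι' (Fin m) g f' T T' C C' id i' h (fun _ => 1)
    (fun _ => isIntegral_one) hc
  refine ⟨φ, h1, fun j => ?_⟩
  rw [h3 j 1, Finset.sum_eq_single j]
  · have e : id j = j := rfl
    rw [if_pos e, map_one, map_one, map_one, one_smul, one_mul]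
  · intro a _ ha
    exact if_neg ha
  · intro hj
    exact absurd (Finset.mem_univ j) hj

/-- Pontryagin products. -/
theorem pP1 (hC : S_C) (hW : S_Wdg) (hH : S_Hom) : S_P1 := by
  intro X m n g h hg hh T C
  obtain ⟨-, hpush, hpont, -, -⟩ := hW
  obtain ⟨T1, ⟨C1⟩⟩ := hC X (Fin m) g
  obtain ⟨T2, ⟨C2⟩⟩ := hC X (Fin n) h
  obtain ⟨φ, hφ, hφx⟩ := hom_x hH X g (Fin.append g h) T1 T C1 C (Fin.castAdd n) (fun _ => 1)
    (fun a γ => by rw [Fin.append_left, mul_one])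
  obtain ⟨ψ, hψ, hψx⟩ := hom_x hH X h (Fin.append g h) T2 T C2 C (Fin.natAdd m) (fun _ => 1)
    (fun a γ => by rw [Fin.append_right, mul_one])
  have h1 := Alg.push φ hφ (hg T1 C1)
  have h2 := Alg.push ψ hψ (hh T2 C2)
  rw [hpush] at h1 h2
  have h3 := Alg.pont h1 h2
  rw [hpont] at h3
  have h4 : (Fin.append (fun j => C1.x (j, 1) ∘ₗ pull φ) (fun j => C2.x (j, 1) ∘ₗ pull ψ)) =
      fun j => C.x (j, 1) := by
    funext j
    refine Fin.addCases (fun i => ?_) (fun i => ?_) j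
    · rw [Fin.append_left, hφx, inv_one]
    · rw [Fin.append_right, hψx, inv_one]
  rw [h4] at h3
  exact h3

/-- Balanced classes on a product. -/
theorem pI (hC : S_C) (hW : S_Wdg) (hH : S_Hom) (hPF : S_PF) : S_I := by
  intro X ι _ f T C m k s hs
  obtain ⟨-, hpush, -, -, -⟩ := hW
  have h0 : PP (fun j => (f (s j).1).div (s j).2) := hPF X m k _ hs
  obtain ⟨T1, ⟨C1⟩⟩ := hC X (Fin m) (fun j => (f (s j).1).div (s j).2)
  obtain ⟨φ, hφ, hφx⟩ := hom_x hH X (fun j => (f (s j).1).div (s j).2) f T1 T C1 C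
    (fun j => (s j).1) (fun j => (s j).2⁻¹) (fun a γ => by
      show γ ∈ (f (s a).1).S ↔ γ * (s a).2⁻¹ * (s a).2 ∈ (f (s a).1).S
      rw [inv_mul_cancel_right])
  have h1 := Alg.push φ hφ (h0 T1 C1)
  rw [hpush] at h1
  have h4 : (fun j => C1.x (j, 1) ∘ₗ pull φ) = fun j => C.x (s j) := by
    funext j
    rw [hφx, inv_inv]
  rw [h4] at h1
  exact h1

end HC
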