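import Pool.Agent.Lib.HC.Iface

/-!
# PROJECT HC, S_P3 (helper39): a pair `Φ, conj Φ`

For `1 ∈ Φ` the class `c` of `S_H` for `Φ, Φ, Φ, Φ`, intersected with `z_(1,1) ∧ z_(3,c)`, isolated and mapped to
`A_Φ × A_(conj Φ)` by `(y₀, y₁, y₂, y₃) ↦ (y₀, c y₂)`. Otherwise exchange `Φ` and `conj Φ`.
-/

set_option autoImplicit false

noncomputable section

namespace HC

variable {X : CMF}

private theorem p3_cc (Φ : Ty X) : Φ.conj.conj = Φ := by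
  ext g
  show ¬ ¬ g ∈ Φ.S ↔ g ∈ Φ.S
  rw [not_not]

private theorem p3_mc (Φ : Ty X) (g : X.G) : g * X.c ∈ Φ.S ↔ g ∉ Φ.S := by
  have h := Φ.cm g
  rw [X.comm] at h
  tauto

/-- The permutation `0, 1, 2, 3 ↦ 1, 3, 0, 2`. -/
private def p3_s : Equiv.Perm (Fin 4) where
  toFun := ![1, 3, 0, 2]
  invFun := ![2, 0, 3, 1]
  left_inv := by decide
  right_inv := by decide

/-- The pair, if `1 ∈ Φ`. -/
private theorem p3_one (hC : S_C) (hW : S_Wdg) (hHom : S_Hom) (hD : S_D) (hG : S_G) (hH : S_H) (Φ : Ty X)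
    (h1 : (1 : X.G) ∈ Φ.S) : PP ![Φ, Φ.conj] := by
  classical
  intro T' C'
  obtain ⟨T, ⟨C⟩⟩ := hC X (Fin 4) ![Φ, Φ, Φ, Φ]
  obtain ⟨c, hA, hc⟩ := hH X ![Φ, Φ, Φ, Φ] (fun i => by fin_cases i <;> exact h1) (fun g => rfl) T C
  -- the intersection
  have hA2 := hG X (Fin 4) ![Φ, Φ, Φ, Φ] T C (1, 1) (3, X.c) (by
    ext g
    show ¬ (g * 1 ∈ Φ.S) ↔ g * X.c ∈ Φ.S
    rw [mul_one, p3_mc]) 2 c hA
  have hc2 : c (![C.z (0, 1), C.z (1, 1), C.z (2, X.c), C.z (3, X.c)] ∘ p3_s) ≠ 0 := by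
    rw [c.map_perm]
    intro h0
    apply hc
    rcases Int.units_eq_one_or (Equiv.Perm.sign p3_s) with h2 | h2 <;> rw [h2] at h0 <;> simpa using h0
  have hA3 := hD X (Fin 4) ![Φ, Φ, Φ, Φ] T C 2 _ hA2 ![(0, 1), (2, X.c)] (by
    intro h0
    apply hc2
    rw [← h0]
    show _ = c (Fin.cons (C.z (1, 1)) (Fin.cons (C.z (3, X.c)) fun j => C.z (![(0, 1), (2, X.c)] j)))
    congr 1
    funext j
    fin_cases j <;> rfl)
  -- the homomorphism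
  obtain ⟨φ, hφ, -, hx⟩ := hHom X (Fin 4) (Fin 2) (Fin 2) ![Φ, Φ, Φ, Φ] ![Φ, Φ.conj] T T' C C' ![0, 2] ![0, 1]
    ![1, X.c] ![1, 1] (fun a => by fin_cases a <;> exact isIntegral_one) (fun a g => by
      fin_cases a
      · show g ∈ Φ.S ↔ g * 1 ∈ Φ.S
        rw [mul_one]
      · show ¬ (g ∈ Φ.S) ↔ g * X.c ∈ Φ.S
        rw [p3_mc])
  have hA4 := Alg.push φ hφ hA3
  rw [hW.2.1] at hA4
  have e : (fun j : Fin 2 => C.x (![(0, 1), (2, X.c)] j) ∘ₗ pull φ) = fun j : Fin 2 => C'.x (j, 1) := by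
    funext j
    fin_cases j
    · show C.x (0, 1) ∘ₗ pull φ = C'.x (0, 1)
      rw [hx, Fin.sum_univ_two]
      simp
    · show C.x (2, X.c) ∘ₗ pull φ = C'.x (1, 1)
      rw [hx, Fin.sum_univ_two]
      simp
  rw [e] at hA4
  exact hA4

/-- **S_P3.** -/
theorem pP3 (hC : S_C) (hW : S_Wdg) (hHom : S_Hom) (hD : S_D) (hG : S_G) (hH : S_H) (hP0 : S_P0) : S_P3 := by
  intro X Φ
  by_cases h1 : (1 : X.G) ∈ Φ.S
  · exact p3_one hC hW hHom hD hG hH Φ h1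
  · have h2 := hP0 X 2 _ (Equiv.swap 0 1) (p3_one hC hW hHom hD hG hH Φ.conj h1)
    have e : (![Φ.conj, Φ.conj.conj] ∘ (Equiv.swap (0 : Fin 2) 1)) = ![Φ, Φ.conj] := by
      funext j
      fin_cases j
      · show (![Φ.conj, Φ.conj.conj] : Fin 2 → Ty X) (Equiv.swap (0 : Fin 2) 1 0) = Φ
        rw [Equiv.swap_apply_left]
        exact p3_cc Φ
      · show (![Φ.conj, Φ.conj.conj] : Fin 2 → Ty X) (Equiv.swap (0 : Fin 2) 1 1) = Φ.conj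
        rw [Equiv.swap_apply_right]
        rfl
    rw [e] at h2
    exact h2

end HC
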