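import Pool.Agent.Lib.HC.Iface
import Pool.Agent.Lib.HC.B.Sub

/-!
PROJECT HC, (S_P4) four types with sum 2 (helper41): the class of `S_H` is moved by the complex
conjugation of `K` on the factors `2, 3`.
-/

set_option autoImplicit false

open scoped ComplexConjugate

noncomputable section

namespace HC

namespace P4

/-- Two of the four are moved to the front. -/
lemma exists_perm {p : Fin 4 → Prop} [DecidablePred p]
    (h : (if p 0 then 1 else 0) + (if p 1 then 1 else 0) + (if p 2 then 1 else 0) +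
      (if p 3 then 1 else 0) = 2) :
    ∃ σ : Equiv.Perm (Fin 4), p (σ 0) ∧ p (σ 1) ∧ ¬ p (σ 2) ∧ ¬ p (σ 3) := by
  have key : ∀ b : Fin 4 → Bool, (if b 0 = true then 1 else 0) + (if b 1 = true then 1 else 0) +
      (if b 2 = true then 1 else 0) + (if b 3 = true then 1 else 0) = 2 →
      ∃ σ : Equiv.Perm (Fin 4), b (σ 0) = true ∧ b (σ 1) = true ∧ ¬ b (σ 2) = true ∧
        ¬ b (σ 3) = true := by decide
  have h1 := key (fun i => decide (p i))
  simp only [decide_eq_true_eq] at h1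
  exact h1 h

variable {X : CMF}

lemma ind_conj (Φ : Ty X) (g : X.G) : Φ.conj.ind g = 1 - Φ.ind g := by
  classical
  by_cases h : g ∈ Φ.S
  · have h2 : g ∉ Φ.conj.S := fun h3 => h3 h
    rw [Ty.ind, Ty.ind, if_pos h, if_neg h2]
  · have h2 : g ∈ Φ.conj.S := h
    rw [Ty.ind, Ty.ind, if_neg h, if_pos h2]

lemma ind_le (Φ : Ty X) (g : X.G) : Φ.ind g ≤ 1 := by
  classical
  rw [Ty.ind]
  split_ifs <;> omega

lemma mem_conj_c (Φ : Ty X) (g : X.G) : g ∈ Φ.S ↔ g * X.c ∈ Φ.conj.S := by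
  rw [Φ.cm g, ← X.comm g]
  exact Iff.rfl

theorem special (hC : S_C) (hHom : S_Hom) (hD : S_D) (hH : S_H) (f : Fin 4 → Ty X)
    (hf : ∀ g : X.G, ∑ j, (f j).ind g = 2) (m0 : (1 : X.G) ∈ (f 0).S) (m1 : (1 : X.G) ∈ (f 1).S)
    (m2 : (1 : X.G) ∉ (f 2).S) (m3 : (1 : X.G) ∉ (f 3).S) : PP f := by
  intro T C
  let f' : Fin 4 → Ty X := ![f 0, f 1, (f 2).conj, (f 3).conj]
  have hm' : ∀ i, (1 : X.G) ∈ (f' i).S := by
    intro i
    fin_cases i
    · exact m0
    · exact m1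
    · exact m2
    · exact m3
  obtain ⟨T', ⟨C'⟩⟩ := hC X (Fin 4) f'
  obtain ⟨c, hc, hv⟩ := hH X f' hm' (fun g => by
    have h4 := hf g
    rw [Fin.sum_univ_four] at h4
    show (f 0).ind g + (f 1).ind g = (f 2).conj.ind g + (f 3).conj.ind g
    rw [ind_conj, ind_conj]
    have h5 := ind_le (f 2) g
    have h6 := ind_le (f 3) g
    omega) T' C'
  obtain ⟨φ, hφ, hz, -⟩ := hHom X (Fin 4) (Fin 4) (Fin 4) f' f T' T C' C id id
    (![1, 1, X.c, X.c] : Fin 4 → X.G) (fun _ => 1) (fun _ => isIntegral_one) (by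
      intro a g
      fin_cases a
      · show g ∈ (f 0).S ↔ g * 1 ∈ (f 0).S
        rw [mul_one]
      · show g ∈ (f 1).S ↔ g * 1 ∈ (f 1).S
        rw [mul_one]
      · exact mem_conj_c (f 2) g
      · exact mem_conj_c (f 3) g)
  have h5 : push φ c (fun j => C.z ((fun j : Fin 4 => ((j, 1) : Fin 4 × X.G)) j)) ≠ 0 := by
    have h6 : (fun j : Fin 4 => pull φ (C.z (j, 1))) =
        ![C'.z (0, 1), C'.z (1, 1), C'.z (2, X.c), C'.z (3, X.c)] := by
      funext j
      rw [hz j 1]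
      simp only [id, map_one, one_smul, one_mul, Finset.sum_ite_eq', Finset.mem_univ, if_true]
      fin_cases j <;> rfl
    rw [push_apply]
    show c (fun j : Fin 4 => pull φ (C.z (j, 1))) ≠ 0
    rw [h6]
    exact hv
  exact hD X (Fin 4) f T C 4 (push φ c) (Alg.push φ hφ hc) (fun j => (j, 1)) h5

end P4

/-- Four types with sum 2. -/
theorem pP4 (hC : S_C) (hHom : S_Hom) (hP0 : S_P0) (hD : S_D) (hH : S_H) : S_P4 := by
  intro X f hf
  have h1 := hf 1
  rw [Fin.sum_univ_four] at h1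
  classical
  have h1' : (if (1 : X.G) ∈ (f 0).S then 1 else 0) + (if (1 : X.G) ∈ (f 1).S then 1 else 0) +
      (if (1 : X.G) ∈ (f 2).S then 1 else 0) + (if (1 : X.G) ∈ (f 3).S then 1 else 0) = 2 := by
    rw [← h1]
    unfold Ty.ind
    congr
  obtain ⟨σ, s0, s1, s2, s3⟩ := P4.exists_perm (p := fun i => (1 : X.G) ∈ (f i).S) h1'
  have h4 : PP (f ∘ σ) := by
    refine P4.special hC hHom hD hH (f ∘ σ) (fun g => ?_) s0 s1 s2 s3
    rw [← hf g]
    exact Equiv.sum_comp σ fun j => (f j).ind g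
  have h5 := hP0 X 4 (f ∘ σ) σ.symm h4
  have h6 : (f ∘ σ) ∘ σ.symm = f := by
    funext i
    exact congrArg f (σ.apply_symm_apply i)
  rwa [h6] at h5

end HC
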