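import Pool.Agent.Lib.HC.Iface
import Pool.Agent.Lib.HC.P.Wtl

/-!
# PROJECT HC: `S_Fund`, the fundamental class of `TT f` (helper58)
-/

set_option autoImplicit false

noncomputable section

namespace HC
namespace Fund

/-- The frame is a real basis. -/
theorem frame_zero (T : AV) (A : T.V →ₗ[ℝ] ℂ) (h : ∀ j, A (ec T (frame (dm T) j)) = 0) : A = 0 := by
  have h1 : ∀ l : Fin (dm T), A (ec T (Pi.single l 1)) = 0 := by
    intro l
    have e := h ⟨2 * l.1, by have := l.2; omega⟩
    have e2 : frame (dm T) ⟨2 * l.1, by have := l.2; omega⟩ = Pi.single l 1 := by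
      unfold frame
      rw [if_pos (by show 2 * l.1 % 2 = 0; omega)]
      congr 1
      exact Fin.ext (by show 2 * l.1 / 2 = l.1; omega)
    rwa [e2] at e
  have h2 : ∀ l : Fin (dm T), A (ec T (Pi.single l Complex.I)) = 0 := by
    intro l
    have e := h ⟨2 * l.1 + 1, by have := l.2; omega⟩
    have e2 : frame (dm T) ⟨2 * l.1 + 1, by have := l.2; omega⟩ = Pi.single l Complex.I := by
      unfold frame
      rw [if_neg (by show ¬ (2 * l.1 + 1) % 2 = 0; omega)]
      congr 1
      exact Fin.ext (by show (2 * l.1 + 1) / 2 = l.1; omega)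
    rwa [e2] at e
  have h3 : ∀ z : Fin (dm T) → ℂ, A (ec T z) = 0 := by
    intro z
    have ez : z = ∑ l, ((z l).re • (Pi.single l (1 : ℂ) : Fin (dm T) → ℂ) +
        (z l).im • (Pi.single l Complex.I : Fin (dm T) → ℂ)) := by
      funext k
      rw [Finset.sum_apply, Finset.sum_eq_single k]
      · simp
      · intro l _ hl
        simp [Pi.single_apply, hl.symm]
      · intro h
        exact absurd (Finset.mem_univ k) h
    set B : (Fin (dm T) → ℂ) →ₗ[ℝ] ℂ := A ∘ₗ ((ec T).toLinearEquiv.toLinearMap.restrictScalars ℝ) with hB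
    change B z = 0
    rw [ez, map_sum]
    refine Finset.sum_eq_zero fun l _ => ?_
    rw [map_add, map_smul, map_smul]
    have e1 : B (Pi.single l 1) = 0 := h1 l
    have e2 : B (Pi.single l Complex.I) = 0 := h2 l
    rw [e1, e2, smul_zero, smul_zero, add_zero]
  ext v
  have := h3 ((ec T).symm v)
  rwa [ContinuousLinearEquiv.apply_symm_apply] at this

variable {K : Type} [Field K] [NumberField K] [NumberField.IsCMField K] {n : ℕ}

/-- The embeddings and their conjugates. -/
def tw2 (f : Fin n → CMTy K) : ((i : Fin n) × (f i).1) ⊕ ((i : Fin n) × (f i).1) →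
    Fin n × (K →+* ℂ) :=
  Sum.elim (fun s => (s.1, s.2.1)) (fun s => (s.1, NumberField.ComplexEmbedding.conjugate s.2.1))

theorem tw2_bij (f : Fin n → CMTy K) : Function.Bijective (tw2 f) := by
  have cc : ∀ τ : K →+* ℂ, NumberField.ComplexEmbedding.conjugate
      (NumberField.ComplexEmbedding.conjugate τ) = τ := fun τ => star_star τ
  have hno : ∀ (i : Fin n) (τ : (f i).1), NumberField.ComplexEmbedding.conjugate τ.1 ∉ (f i).1 :=
    fun i τ => ((f i).2 τ.1).1 τ.2
  constructor
  · rintro (⟨i, τ⟩ | ⟨i, τ⟩) (⟨j, σ⟩ | ⟨j, σ⟩) h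
    · have h1 : i = j := congrArg Prod.fst h
      subst h1
      have h2 : τ.1 = σ.1 := congrArg Prod.snd h
      rw [Subtype.ext h2]
    · have h1 : i = j := congrArg Prod.fst h
      subst h1
      have h2 : τ.1 = NumberField.ComplexEmbedding.conjugate σ.1 := congrArg Prod.snd h
      exact absurd (h2 ▸ τ.2) (hno i σ)
    · have h1 : i = j := congrArg Prod.fst h
      subst h1
      have h2 : NumberField.ComplexEmbedding.conjugate τ.1 = σ.1 := congrArg Prod.snd h
      exact absurd (h2 ▸ σ.2) (hno i τ)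
    · have h1 : i = j := congrArg Prod.fst h
      subst h1
      have h2 : NumberField.ComplexEmbedding.conjugate τ.1 =
        NumberField.ComplexEmbedding.conjugate σ.1 := congrArg Prod.snd h
      have h3 : τ.1 = σ.1 := by rw [← cc τ.1, h2, cc]
      rw [Subtype.ext h3]
  · rintro ⟨i, τ⟩
    by_cases h : τ ∈ (f i).1
    · exact ⟨Sum.inl ⟨i, ⟨τ, h⟩⟩, rfl⟩
    · refine ⟨Sum.inr ⟨i, ⟨_, conj_mem (f i) h⟩⟩, ?_⟩
      exact Prod.ext rfl (cc τ)

theorem card_idx (f : Fin n → CMTy K) : Fintype.card (Fin n × (K →+* ℂ)) = 2 * dm (TT f) := by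
  rw [← Fintype.card_congr (Equiv.ofBijective _ (tw2_bij f)), Fintype.card_sum]
  have e : dm (TT f) = Fintype.card ((i : Fin n) × (f i).1) := by
    unfold dm
    exact Module.finrank_fintype_fun_eq_card ℂ
  rw [e]
  ring

end Fund

open Fund in
/-- **S_Fund.** -/
theorem pFund (hz : S_Zeta) : S_Fund := by
  intro K _ _ _ n f
  obtain ⟨-, -, -, h1, h0, -⟩ := hz K n f
  have e : Fin (2 * dm (TT f)) ≃ Fin n × (K →+* ℂ) := (Fintype.equivFinOfCardEq (card_idx f)).symm
  refine ⟨2 * dm (TT f), dcl (TT f) fun j => ec (TT f) (frame (dm (TT f)) j), e, e.bijective,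
    fund_class (TT f), ?_⟩
  rw [dcl_apply]
  intro hdet
  obtain ⟨c, hc, hc0⟩ := Matrix.exists_vecMul_eq_zero_iff.2 hdet
  have hA : (∑ i, c i • zeta f (e i).1 (e i).2) = 0 := by
    refine frame_zero (TT f) _ fun j => ?_
    have := congrFun hc0 j
    rw [LinearMap.sum_apply]
    simpa only [Matrix.vecMul, dotProduct, Matrix.of_apply, LinearMap.smul_apply, smul_eq_mul,
      Pi.zero_apply] using this
  apply hc
  funext i
  have h2 := congrArg (co f (e i).1 (e i).2) hA
  rw [map_sum, map_zero, Finset.sum_eq_single i] at h2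
  · rw [map_smul, h1 _ _ _ _ rfl, smul_eq_mul, mul_one] at h2
    exact h2
  · intro k _ hk
    rw [map_smul, h0 (e i).1 (e k).1 (e i).2 (e k).2 (fun h => hk (e.injective h).symm), smul_zero]
  · intro h
    exact absurd (Finset.mem_univ i) h

end HC
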